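import Pool.Agent.K1H54.GC.Stm

/-!
# Piece MOM of project GC: the second moment of the correlations over all characters modulo `q`
-/

set_option autoImplicit false

namespace Pool.Agent.K1H89.GC

open Finset Pool.Agent.K1H54.GC

/-- the coefficient of the pair `(m, h)` -/
noncomputable def cc (t : ℕ × ℕ) : ℂ :=
  ((ArithmeticFunction.moebius t.1 : ℤ) : ℂ) * ((ArithmeticFunction.moebius (t.1 - t.2) : ℤ) : ℂ)

/-- the ratio `(m - h) / m` in `ZMod q` -/
noncomputable def gq (q : ℕ) (t : ℕ × ℕ) : ZMod q :=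
  ((t.1 - t.2 : ℕ) : ZMod q) * ((t.1 : ℕ) : ZMod q)⁻¹

lemma norm_mu (n : ℕ) : ‖((ArithmeticFunction.moebius n : ℤ) : ℂ)‖ ≤ 1 := by
  rw [Complex.norm_intCast]
  have h : |ArithmeticFunction.moebius n| ≤ 1 := ArithmeticFunction.abs_moebius_le_one
  exact_mod_cast h

lemma norm_cc (t : ℕ × ℕ) : ‖cc t‖ ≤ 1 := by
  unfold cc
  rw [norm_mul]
  exact mul_le_one₀ (norm_mu _) (norm_nonneg _) (norm_mu _)

lemma conj_char {q : ℕ} [Fact q.Prime] (χ : DirichletCharacter ℂ q) (a : ZMod q) :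
    (starRingEnd ℂ) (χ a) = χ a⁻¹ := by
  have h := MulChar.star_apply' χ a
  rw [MulChar.inv_apply'] at h
  exact h

lemma ZZ_eq {q : ℕ} [Fact q.Prime] (χ : DirichletCharacter ℂ q) (U1 U2 j : ℕ) :
    ZZ χ U1 U2 j = ∑ t ∈ Ioc (U1 + j) (U2 + j) ×ˢ Icc 1 j, cc t * χ (gq q t) := by
  rw [Finset.sum_product]
  unfold ZZ
  refine Finset.sum_nbij' (fun u => u + j + 1) (fun m => m - j - 1) ?_ ?_ ?_ ?_ ?_
  · intro u hu
    rw [mem_Ico] at hu; rw [mem_Ioc]; omega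
  · intro m hm
    rw [mem_Ioc] at hm; rw [mem_Ico]; omega
  · intro u hu
    show u + j + 1 - j - 1 = u
    omega
  · intro m hm
    rw [mem_Ioc] at hm
    show m - j - 1 + j + 1 = m
    omega
  · intro u hu
    unfold DD
    rw [Finset.mul_sum]
    refine Finset.sum_nbij' (fun n => u + j + 1 - n) (fun h => u + j + 1 - h) ?_ ?_ ?_ ?_ ?_
    · intro n hn
      rw [mem_Ioc] at hn; rw [mem_Icc]; omega
    · intro n hn
      rw [mem_Icc] at hn; rw [mem_Ioc]; omega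
    · intro n hn
      rw [mem_Ioc] at hn
      show u + j + 1 - (u + j + 1 - n) = n
      omega
    · intro n hn
      rw [mem_Icc] at hn
      show u + j + 1 - (u + j + 1 - n) = n
      omega
    · intro n hn
      rw [mem_Ioc] at hn
      have e : u + j + 1 - (u + j + 1 - n) = n := by omega
      unfold aa cc gq
      simp only [e]
      rw [map_mul, conj_char, map_mul, map_intCast]
      ring

lemma sols_of {q : ℕ} [Fact q.Prime] {A B j : ℕ} (hj : j ≤ A) (hq : B * j < q) {t t' : ℕ × ℕ}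
    (ht : t ∈ Ioc A B ×ˢ Icc 1 j) (ht' : t' ∈ Ioc A B ×ˢ Icc 1 j) (h0 : gq q t' ≠ 0)
    (h : gq q t' = gq q t) : (t, t') ∈ sols A B j := by
  unfold sols
  rw [mem_filter, mem_product]
  refine ⟨⟨ht, ht'⟩, ?_⟩
  simp only
  rw [mem_product, mem_Ioc, mem_Icc] at ht ht'
  obtain ⟨m, k⟩ := t
  obtain ⟨m', k'⟩ := t'
  simp only at ht ht' ⊢
  unfold gq at h h0
  simp only at h h0
  have hm' : ((m' : ℕ) : ZMod q) ≠ 0 := fun e => h0 (by rw [e, inv_zero, mul_zero])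
  have hm : ((m : ℕ) : ZMod q) ≠ 0 := fun e => h0 (by rw [h, e, inv_zero, mul_zero])
  rw [← div_eq_mul_inv, ← div_eq_mul_inv, div_eq_div_iff hm' hm] at h
  rw [Nat.cast_sub (by omega), Nat.cast_sub (by omega)] at h
  have h2 : ((m * k' : ℕ) : ZMod q) = ((m' * k : ℕ) : ZMod q) := by
    push_cast
    linear_combination -h
  rw [ZMod.natCast_eq_natCast_iff'] at h2
  have b1 : m * k' < q := lt_of_le_of_lt (Nat.mul_le_mul ht.1.2 ht'.2.2) hq
  have b2 : m' * k < q := lt_of_le_of_lt (Nat.mul_le_mul ht'.1.2 ht.2.2) hq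
  rwa [Nat.mod_eq_of_lt b1, Nat.mod_eq_of_lt b2] at h2

lemma pair_bound {q : ℕ} [Fact q.Prime] {A B j : ℕ} (hj : j ≤ A) (hq : B * j < q) {t t' : ℕ × ℕ}
    (ht : t ∈ Ioc A B ×ˢ Icc 1 j) (ht' : t' ∈ Ioc A B ×ˢ Icc 1 j) :
    ‖∑ χ : DirichletCharacter ℂ q, χ (gq q t')⁻¹ * χ (gq q t)‖ ≤
      if (t, t') ∈ sols A B j then (q : ℝ) else 0 := by
  by_cases h0 : gq q t' = 0
  · have : ∑ χ : DirichletCharacter ℂ q, χ (gq q t')⁻¹ * χ (gq q t) = 0 := by
      apply Finset.sum_eq_zero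
      intro χ _
      rw [h0, inv_zero, MulChar.map_zero, zero_mul]
    rw [this, norm_zero]
    split_ifs <;> positivity
  · rw [DirichletCharacter.sum_char_inv_mul_char_eq ℂ (isUnit_iff_ne_zero.mpr h0)]
    by_cases h : gq q t' = gq q t
    · rw [if_pos h, if_pos (sols_of hj hq ht ht' h0 h), Complex.norm_natCast]
      exact_mod_cast Nat.totient_le q
    · rw [if_neg h, norm_zero]
      split_ifs <;> positivity

/-- **MOM** -/
theorem t_MOM : S_MOM := by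
  intro q _ U1 U2 j hq
  set T := Ioc (U1 + j) (U2 + j) ×ˢ Icc 1 j with hT
  have hj : j ≤ U1 + j := Nat.le_add_left _ _
  have e1 : ((∑ χ : DirichletCharacter ℂ q, ‖ZZ χ U1 U2 j‖ ^ 2 : ℝ) : ℂ) =
      ∑ t ∈ T, ∑ t' ∈ T, cc t * (starRingEnd ℂ) (cc t') *
        ∑ χ : DirichletCharacter ℂ q, χ (gq q t')⁻¹ * χ (gq q t) := by
    have e2 : ∀ χ : DirichletCharacter ℂ q, ((‖ZZ χ U1 U2 j‖ ^ 2 : ℝ) : ℂ) =
        ∑ t ∈ T, ∑ t' ∈ T, cc t * (starRingEnd ℂ) (cc t') * (χ (gq q t')⁻¹ * χ (gq q t)) := by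
      intro χ
      have h3 : ((‖ZZ χ U1 U2 j‖ ^ 2 : ℝ) : ℂ) = ZZ χ U1 U2 j * (starRingEnd ℂ) (ZZ χ U1 U2 j) := by
        rw [Complex.mul_conj, Complex.normSq_eq_norm_sq]
      rw [h3, ZZ_eq, map_sum, Finset.sum_mul_sum]
      refine Finset.sum_congr rfl fun t _ => Finset.sum_congr rfl fun t' _ => ?_
      rw [map_mul, conj_char]
      ring
    rw [Complex.ofReal_sum, Finset.sum_congr rfl fun χ _ => e2 χ, Finset.sum_comm]
    refine Finset.sum_congr rfl fun t _ => ?_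
    rw [Finset.sum_comm]
    refine Finset.sum_congr rfl fun t' _ => ?_
    rw [Finset.mul_sum]
  have h0 : 0 ≤ ∑ χ : DirichletCharacter ℂ q, ‖ZZ χ U1 U2 j‖ ^ 2 :=
    Finset.sum_nonneg fun _ _ => by positivity
  rw [← Real.norm_of_nonneg h0, ← Complex.norm_real, e1]
  calc _ ≤ ∑ t ∈ T, ∑ t' ∈ T, ‖cc t * (starRingEnd ℂ) (cc t') *
        ∑ χ : DirichletCharacter ℂ q, χ (gq q t')⁻¹ * χ (gq q t)‖ :=
        (norm_sum_le _ _).trans (Finset.sum_le_sum fun t _ => norm_sum_le _ _)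
    _ ≤ ∑ t ∈ T, ∑ t' ∈ T, if (t, t') ∈ sols (U1 + j) (U2 + j) j then (q : ℝ) else 0 := by
        refine Finset.sum_le_sum fun t ht => Finset.sum_le_sum fun t' ht' => ?_
        rw [norm_mul, norm_mul, RCLike.norm_conj]
        refine le_trans ?_ (pair_bound (q := q) hj hq ht ht')
        have h5 : ‖cc t‖ * ‖cc t'‖ ≤ 1 := mul_le_one₀ (norm_cc _) (norm_nonneg _) (norm_cc _)
        exact mul_le_of_le_one_left (norm_nonneg _) h5
    _ = (q : ℝ) * ((sols (U1 + j) (U2 + j) j).card : ℝ) := by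
        rw [← Finset.sum_product' T T fun t t' =>
          if (t, t') ∈ sols (U1 + j) (U2 + j) j then (q : ℝ) else 0]
        have e6 : sols (U1 + j) (U2 + j) j ⊆ T ×ˢ T := by
          unfold sols
          exact Finset.filter_subset _ _
        simp only [Prod.mk.eta]
        rw [← Finset.sum_filter, Finset.filter_mem_eq_inter, Finset.inter_eq_right.mpr e6,
          Finset.sum_const, nsmul_eq_mul, mul_comm]

end Pool.Agent.K1H89.GC
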